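import Pool.Agent.H81.WK.Count

/-! The set `G` from the sequence of `exists_seq`. -/

set_option linter.unusedSectionVars false

open Module Submodule H15

namespace H74.WK

open H81.WK

variable {ι : Type*} [Fintype ι] {E : Type*} [AddCommGroup E] [Module ℝ E]
  [FiniteDimensional ℝ E]

variable {w : ι → E} {j κ f ν : ℕ} {B : Finset ι} {s : ι → (E →ₗ[ℝ] ℝ)}

/-- no coloops: every coordinate is hit by an element outside `B`. -/
theorem exists_hit (hF : Fam w j κ f ν) (hB : Bas w B s) {b : ι} (hb : b ∈ B) :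
    ∃ g, g ∉ B ∧ s b (w g) ≠ 0 := by
  by_contra hcon
  push Not at hcon
  have h1 : sp w ({b}ᶜ) ≤ LinearMap.ker (s b) := by
    refine span_le.2 ?_
    rintro _ ⟨i, hi, rfl⟩
    have hi' : i ≠ b := hi
    show s b (w i) = 0
    by_cases hiB : i ∈ B
    · exact hB.zero b hb i hiB hi'.symm
    · exact hcon i hiB
  rw [hF.col b] at h1
  have h2 : s b (w b) = 0 := h1 (Submodule.mem_top (x := w b))
  rw [hB.one b hb] at h2
  exact one_ne_zero h2

/-- the set `G`, given the sequence. -/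
theorem exists_G_of_seq (hF : Fam w j κ f ν) (hB : Bas w B s) (hj : 1 ≤ j) {q : ℕ} (g0 : ι)
    (hseq : ∃ g : Fin q → ι, (∀ i, g i ∉ B) ∧
      (∀ R ⊆ B, (∀ b ∈ R, s b (w g0) ≠ 0) → R.card = j + 1 →
        ∃ i, ¬ ∃ a : ℝ, ∀ b ∈ R, s b (w (g i)) = a * s b (w g0)) ∧
      (∀ R ⊆ B, R.card = j → ∃ i, ∃ b ∈ R, s b (w (g i)) ≠ 0)) :
    ∃ G : Finset ι, G.card ≤ q + j ∧ Disjoint G B ∧ g0 ∉ G ∧
      (∀ R ⊆ B, (∀ b ∈ R, s b (w g0) ≠ 0) → R.card = j + 1 →
        ∃ g ∈ G, ¬ ∃ a : ℝ, ∀ b ∈ R, s b (w g) = a * s b (w g0)) ∧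
      (∀ b ∈ B, s b (w g0) = 0 → ∃ g ∈ G, s b (w g) ≠ 0) := by
  classical
  obtain ⟨g, hgB, hg1, hg2⟩ := hseq
  choose e he1 he2 using fun b : {b // b ∈ B} => exists_hit hF hB b.2
  set Z : Finset {b // b ∈ B} :=
    Finset.univ.filter fun b => s b (w g0) = 0 ∧ ∀ i, s b (w (g i)) = 0 with hZ
  have hZc : Z.card ≤ j := by
    by_contra hcon
    push Not at hcon
    obtain ⟨R, hRZ, hRc⟩ := Finset.exists_subset_card_eq hcon.le
    have hmap : (R.map ⟨Subtype.val, Subtype.val_injective⟩) ⊆ B := by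
      intro x hx
      obtain ⟨y, -, rfl⟩ := Finset.mem_map.1 hx
      exact y.2
    obtain ⟨i, b, hb, hne⟩ := hg2 _ hmap (by rw [Finset.card_map, hRc])
    obtain ⟨y, hy, rfl⟩ := Finset.mem_map.1 hb
    have := hRZ hy
    rw [hZ, Finset.mem_filter] at this
    exact hne (this.2.2 i)
  refine ⟨(Finset.univ.image g).erase g0 ∪ Z.image e, ?_, ?_, ?_, ?_, ?_⟩
  · refine (Finset.card_union_le _ _).trans ?_
    have h1 : ((Finset.univ.image g).erase g0).card ≤ q := by
      refine (Finset.card_erase_le).trans ?_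
      refine Finset.card_image_le.trans ?_
      simp
    have h2 : (Z.image e).card ≤ j := Finset.card_image_le.trans hZc
    omega
  · rw [Finset.disjoint_left]
    intro x hx hxB
    rcases Finset.mem_union.1 hx with hx | hx
    · obtain ⟨i, -, rfl⟩ := Finset.mem_image.1 (Finset.mem_of_mem_erase hx)
      exact hgB i hxB
    · obtain ⟨b, -, rfl⟩ := Finset.mem_image.1 hx
      exact he1 b hxB
  · intro hx
    rcases Finset.mem_union.1 hx with hx | hx
    · exact Finset.notMem_erase _ _ hx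
    · obtain ⟨b, hb, hbe⟩ := Finset.mem_image.1 hx
      rw [hZ, Finset.mem_filter] at hb
      have := he2 b
      rw [hbe] at this
      exact this hb.2.1
  · intro R hR hne hRc
    obtain ⟨i, hi⟩ := hg1 R hR hne hRc
    refine ⟨g i, Finset.mem_union_left _ (Finset.mem_erase.2 ⟨?_, Finset.mem_image_of_mem g (Finset.mem_univ i)⟩), hi⟩
    intro h
    apply hi
    refine ⟨1, fun b _ => ?_⟩
    rw [h, one_mul]
  · intro b hb h0
    by_cases h : ∀ i, s b (w (g i)) = 0
    · refine ⟨e ⟨b, hb⟩, Finset.mem_union_right _ (Finset.mem_image_of_mem e ?_), he2 ⟨b, hb⟩⟩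
      rw [hZ, Finset.mem_filter]
      exact ⟨Finset.mem_univ _, h0, h⟩
    · push Not at h
      obtain ⟨i, hi⟩ := h
      refine ⟨g i, Finset.mem_union_left _ (Finset.mem_erase.2 ⟨?_, Finset.mem_image_of_mem g (Finset.mem_univ i)⟩), hi⟩
      intro h
      rw [h] at hi
      exact hi h0

end H74.WK
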